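import Pool.Agent.Helper8.SE.Sheet

/-! Row LIP of the project SE (MP_3a8adc_an). -/

open Set Filter Topology

namespace Pool.Agent.Helper61.SE

open Pool.Agent.Helper8.SE

theorem lip_abel (W : ℝ → ℝ) (D D' F F' : ℕ → ℝ) (N : ℕ) :
    Kf W D' F' N - Kf W D F N =
      ∑ n ∈ Finset.range (N + 1), ((if n = 0 then 1 else W (D' (n - 1))) - W (D' n)) *
        (F' n - F n) +
      ∑ n ∈ Finset.range N, (W (D' n) - W (D n)) * (F (n + 1) - F n) -
      (W (D' N) - W (D N)) * F N := by
  unfold Kf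
  induction N with
  | zero => simp; ring
  | succ N ih =>
    rw [Finset.sum_range_succ
        (fun n => ((if n = 0 then 1 else W (D' (n - 1))) - W (D' n)) * F' n) (N + 1),
      Finset.sum_range_succ
        (fun n => ((if n = 0 then 1 else W (D (n - 1))) - W (D n)) * F n) (N + 1),
      Finset.sum_range_succ
        (fun n => ((if n = 0 then 1 else W (D' (n - 1))) - W (D' n)) * (F' n - F n)) (N + 1),
      Finset.sum_range_succ (fun n => (W (D' n) - W (D n)) * (F (n + 1) - F n)) N]
    simp only [Nat.succ_ne_zero, if_false, Nat.add_sub_cancel]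
    linear_combination ih

theorem lip_one (W : ℝ → ℝ) (D : ℕ → ℝ) (N : ℕ) :
    ∑ n ∈ Finset.range (N + 1), ((if n = 0 then 1 else W (D (n - 1))) - W (D n)) =
      1 - W (D N) := by
  induction N with
  | zero => simp
  | succ N ih =>
    rw [Finset.sum_range_succ _ (N + 1), ih]
    simp only [Nat.succ_ne_zero, if_false, Nat.add_sub_cancel]
    ring

theorem lip_anti {D : ℕ → ℝ} (h : ∀ n, D (n + 1) ≤ D n) : Antitone D :=
  antitone_nat_of_succ_le h

/-- the bound for the differences of the weights -/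
theorem lip_g {κ s₀ Λ : ℝ} {W : ℝ → ℝ} (hκ : 0 < κ) (hκ1 : κ ≤ 1 / 10) (hs : 0 < s₀)
    (hΛ : 0 < Λ) (hW : LogW κ s₀ Λ W) {τ a b : ℝ} (hτ0 : 0 ≤ τ) (hτ : τ ≤ κ * s₀)
    (hab : |a - b| ≤ τ) (hne : W b - W a ≠ 0) :
    (1 - κ) * s₀ < a ∧ a < (1 + κ) * (s₀ * Real.exp Λ) ∧
      |W b - W a| ≤ (1 + κ) * τ / (Λ * (1 - 2 * κ)) / a := by
  obtain ⟨h1, h2⟩ := abs_le.1 hab
  have hE : 1 ≤ Real.exp Λ := Real.one_le_exp hΛ.le
  have hEs : s₀ ≤ s₀ * Real.exp Λ := by nlinarith
  have ha1 : (1 - κ) * s₀ < a := by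
    by_contra hc
    have hc' := not_lt.1 hc
    apply hne
    rw [hW.zero a (by nlinarith), hW.zero b (by nlinarith), sub_self]
  have ha2 : a < (1 + κ) * (s₀ * Real.exp Λ) := by
    by_contra hc
    have hc' := not_lt.1 hc
    apply hne
    have hκs : κ * s₀ ≤ κ * (s₀ * Real.exp Λ) := mul_le_mul_of_nonneg_left hEs hκ.le
    rw [hW.one a (by nlinarith), hW.one b (by nlinarith), sub_self]
  have ha0 : 0 < a := lt_trans (mul_pos (by linarith) hs) ha1
  refine ⟨ha1, ha2, ?_⟩
  -- the smaller of the two numbers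
  have hmin : (1 - 2 * κ) * a ≤ min a b := by
    refine le_min ?_ ?_
    · nlinarith
    · have h3 : τ ≤ 2 * κ * a := by
        have h4 : κ * s₀ ≤ 2 * κ * ((1 - κ) * s₀) := by
          have h5 : 0 < κ * s₀ := mul_pos hκ hs
          nlinarith
        have h6 : 2 * κ * ((1 - κ) * s₀) ≤ 2 * κ * a :=
          mul_le_mul_of_nonneg_left ha1.le (by linarith)
        linarith
      linarith
  have hm0 : 0 < (1 - 2 * κ) * a := mul_pos (by linarith) ha0
  have hmin0 : 0 < min a b := lt_of_lt_of_le hm0 hmin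
  have key : |W b - W a| ≤ (1 + κ) / Λ * (τ / min a b) := by
    rcases le_total a b with h | h
    · rw [min_eq_left h] at hmin0 ⊢
      have h3 := hW.lip a b hmin0 h
      rw [abs_of_nonneg (sub_nonneg.2 (hW.mono h))]
      refine h3.trans (mul_le_mul_of_nonneg_left ?_ (by positivity))
      exact div_le_div_of_nonneg_right (by linarith) hmin0.le
    · rw [min_eq_right h] at hmin0 ⊢
      have h3 := hW.lip b a hmin0 h
      rw [abs_sub_comm, abs_of_nonneg (sub_nonneg.2 (hW.mono h))]
      refine h3.trans (mul_le_mul_of_nonneg_left ?_ (by positivity))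
      exact div_le_div_of_nonneg_right (by linarith) hmin0.le
  refine key.trans ?_
  have h4 : τ / min a b ≤ τ / ((1 - 2 * κ) * a) := div_le_div_of_nonneg_left hτ0 hm0 hmin
  calc (1 + κ) / Λ * (τ / min a b) ≤ (1 + κ) / Λ * (τ / ((1 - 2 * κ) * a)) :=
        mul_le_mul_of_nonneg_left h4 (by positivity)
    _ = (1 + κ) * τ / (Λ * (1 - 2 * κ)) / a := by
        have h5 : (1 - 2 * κ) ≠ 0 := by
          have : 0 < 1 - 2 * κ := by linarith
          exact this.ne'
        field_simp

theorem stLIP : ST_ABEL → ST_LIP := by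
  classical
  intro hAB κ s₀ Λ e τ W D D' U U' V V' N hκ hκ1 hs hΛ he0 he hτ0 hτ hW hD hU hV hDm hDm' hUm hVm
    hUV1 hUV2 hN hN'
  have hk2 : 0 < 1 - 2 * κ := by linarith
  rw [lip_abel, hN, hN', sub_self, zero_mul, sub_zero]
  -- first sum
  have hF : ∀ n, |(U' n + V' n) / 2 - (U n + V n) / 2| ≤ τ := by
    intro n
    have h1 := abs_le.1 (hU n)
    have h2 := abs_le.1 (hV n)
    rw [abs_le]
    constructor <;> linarith [h1.1, h1.2, h2.1, h2.2]
  have hc0 : ∀ n, 0 ≤ (if n = 0 then 1 else W (D' (n - 1))) - W (D' n) := by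
    intro n
    rcases Nat.eq_zero_or_pos n with h | h
    · subst h
      rw [if_pos rfl]
      linarith [hW.le_one (D' 0)]
    · rw [if_neg h.ne']
      obtain ⟨m, rfl⟩ : ∃ m, n = m + 1 := ⟨n - 1, by omega⟩
      rw [Nat.add_sub_cancel]
      exact sub_nonneg.2 (hW.mono (hDm' m))
  have hfirst : |∑ n ∈ Finset.range (N + 1), ((if n = 0 then 1 else W (D' (n - 1))) - W (D' n)) *
      ((U' n + V' n) / 2 - (U n + V n) / 2)| ≤ τ := by
    refine (Finset.abs_sum_le_sum_abs _ _).trans ?_
    calc _ ≤ ∑ n ∈ Finset.range (N + 1),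
          ((if n = 0 then 1 else W (D' (n - 1))) - W (D' n)) * τ := by
          refine Finset.sum_le_sum fun n _ => ?_
          rw [abs_mul, abs_of_nonneg (hc0 n)]
          exact mul_le_mul_of_nonneg_left (hF n) (hc0 n)
      _ = τ := by rw [← Finset.sum_mul, lip_one, hN', sub_zero, one_mul]
  -- second sum
  set l : ℕ → ℝ := fun n => U n - V n with hl
  have hl0 : ∀ n, 0 ≤ l n - l (n + 1) := by
    intro n
    have h1 := hUm n
    have h2 := hVm n
    rw [hl]
    beta_reduce
    linarith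
  have hFd : ∀ n, |(U (n + 1) + V (n + 1)) / 2 - (U n + V n) / 2| ≤ (l n - l (n + 1)) / 2 := by
    intro n
    have h1 := hUm n
    have h2 := hVm n
    rw [hl]
    beta_reduce
    rw [abs_le]
    constructor <;> linarith
  set B : ℝ := (1 + κ) * τ / (Λ * (1 - 2 * κ)) with hB
  have hB0 : 0 ≤ B := by rw [hB]; positivity
  have hDanti := lip_anti hDm
  have hsecond : |∑ n ∈ Finset.range N, (W (D' n) - W (D n)) *
      ((U (n + 1) + V (n + 1)) / 2 - (U n + V n) / 2)| ≤ B * ((1 + 2 * κ) * (Λ + 2)) := by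
    refine (Finset.abs_sum_le_sum_abs _ _).trans ?_
    set T := (Finset.range N).filter (fun n => W (D' n) - W (D n) ≠ 0) with hT
    have hsum : ∑ n ∈ Finset.range N, |(W (D' n) - W (D n)) *
        ((U (n + 1) + V (n + 1)) / 2 - (U n + V n) / 2)| =
        ∑ n ∈ T, |(W (D' n) - W (D n)) *
          ((U (n + 1) + V (n + 1)) / 2 - (U n + V n) / 2)| := by
      rw [hT, Finset.sum_filter]
      refine Finset.sum_congr rfl fun n _ => ?_
      by_cases h : W (D' n) - W (D n) = 0
      · rw [if_neg (not_not.2 h), h, zero_mul, abs_zero]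
      · rw [if_pos h]
    rw [hsum]
    rcases T.eq_empty_or_nonempty with h0 | hne
    · rw [h0, Finset.sum_empty]
      positivity
    obtain ⟨p, hp⟩ : ∃ p, p = T.min' hne := ⟨_, rfl⟩
    obtain ⟨q, hq⟩ : ∃ q, q = T.max' hne := ⟨_, rfl⟩
    have hpT : p ∈ T := by rw [hp]; exact Finset.min'_mem _ _
    have hqT : q ∈ T := by rw [hq]; exact Finset.max'_mem _ _
    have hpq : p ≤ q := by rw [hp]; exact Finset.min'_le _ _ hqT
    have hTs : T ⊆ Finset.Ico p (q + 1) := by
      intro n hn
      refine Finset.mem_Ico.2 ⟨?_, ?_⟩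
      · rw [hp]; exact Finset.min'_le _ _ hn
      · refine Nat.lt_succ_of_le ?_
        rw [hq]; exact Finset.le_max' _ _ hn
    have hg : ∀ n ∈ T, (1 - κ) * s₀ < D n ∧ D n < (1 + κ) * (s₀ * Real.exp Λ) ∧
        |W (D' n) - W (D n)| ≤ B / D n := fun n hn =>
      lip_g hκ hκ1 hs hΛ hW hτ0 hτ (hD n) (Finset.mem_filter.1 hn).2
    have hlow : ∀ n ≤ q, (1 - κ) * s₀ < D n := fun n hn =>
      lt_of_lt_of_le (hg q hqT).1 (hDanti hn)
    have hD0 : ∀ n ≤ q, 0 < D n := fun n hn =>
      lt_trans (mul_pos (by linarith) hs) (hlow n hn)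
    have hs1 : ∑ n ∈ T, |(W (D' n) - W (D n)) *
        ((U (n + 1) + V (n + 1)) / 2 - (U n + V n) / 2)| ≤
        ∑ n ∈ T, B / 2 * ((l n - l (n + 1)) / D n) := by
      refine Finset.sum_le_sum fun n hn => ?_
      rw [abs_mul]
      have hn' : n ≤ q := by
        have := (Finset.mem_Ico.1 (hTs hn)).2
        omega
      have hDn := hD0 n hn'
      calc _ ≤ (B / D n) * ((l n - l (n + 1)) / 2) :=
            mul_le_mul (hg n hn).2.2 (hFd n) (abs_nonneg _) (by positivity)
        _ = B / 2 * ((l n - l (n + 1)) / D n) := by field_simp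
    have hs2 : ∑ n ∈ T, B / 2 * ((l n - l (n + 1)) / D n) ≤
        ∑ n ∈ Finset.Ico p (q + 1), B / 2 * ((l n - l (n + 1)) / D n) := by
      refine Finset.sum_le_sum_of_subset_of_nonneg hTs fun n hn _ => ?_
      have hn' : n ≤ q := by
        have := (Finset.mem_Ico.1 hn).2
        omega
      exact mul_nonneg (by linarith) (div_nonneg (hl0 n) (hD0 n hn').le)
    refine hs1.trans (hs2.trans ?_)
    rw [← Finset.mul_sum, Finset.sum_Ico_eq_sum_range]
    have hlen : q + 1 - p = (q - p) + 1 := by omega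
    rw [hlen]
    have hAbel := hAB (fun i => D (p + i)) (fun i => l (p + i)) (2 * (1 + 2 * κ)) (q - p)
      (by positivity) (fun n hn => hD0 _ (by omega)) (fun n _ => hDm (p + n)) (by
        intro n hn
        have h1 := hlow (p + n) (by omega)
        have h2 := hUV1 (p + n)
        change l (p + n) ≤ 2 * (1 + 2 * κ) * D (p + n)
        have h3 : e ≤ 2 * κ * D (p + n) := by
          have h4 : κ * s₀ ≤ 2 * κ * ((1 - κ) * s₀) := by
            have h5 : 0 < κ * s₀ := mul_pos hκ hs
            nlinarith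
          have h6 : 2 * κ * ((1 - κ) * s₀) ≤ 2 * κ * D (p + n) :=
            mul_le_mul_of_nonneg_left h1.le (by linarith)
          linarith
        rw [hl]
        beta_reduce
        linarith)
    beta_reduce at hAbel
    have e1 : p + (q - p) = q := by omega
    have e2 : p + (q - p + 1) = q + 1 := by omega
    rw [e1, e2, add_zero] at hAbel
    have hDq := hD0 q le_rfl
    have hDp := hD0 p hpq
    have hlog : Real.log (D p / D q) ≤ Λ + 2 / 9 := by
      have h1 : D p / D q ≤ 11 / 9 * Real.exp Λ := by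
        rw [div_le_iff₀ hDq]
        have h2 := (hg p hpT).2.1
        have h3 := hlow q le_rfl
        have h4 : s₀ ≤ 10 / 9 * D q := by nlinarith
        have h5 : 0 < Real.exp Λ := Real.exp_pos _
        have h6 : (1 + κ) * (s₀ * Real.exp Λ) ≤ 11 / 9 * Real.exp Λ * D q := by
          have h7 : s₀ * (1 + κ) ≤ 11 / 9 * D q := by
            have h8 : (1 - κ) * s₀ * (11 / 9) ≥ s₀ * (1 + κ) := by nlinarith
            linarith [mul_le_mul_of_nonneg_right h3.le (show (0 : ℝ) ≤ 11 / 9 by norm_num)]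
          nlinarith
        linarith
      have h2 : 0 < D p / D q := div_pos hDp hDq
      calc Real.log (D p / D q) ≤ Real.log (11 / 9 * Real.exp Λ) := Real.log_le_log h2 h1
        _ = Real.log (11 / 9) + Λ := by
            rw [Real.log_mul (by norm_num) (Real.exp_pos _).ne', Real.log_exp]
        _ ≤ 2 / 9 + Λ := by
            have := Real.log_le_sub_one_of_pos (show (0 : ℝ) < 11 / 9 by norm_num)
            linarith
        _ = Λ + 2 / 9 := by ring
    have hlast : -(4 * κ) ≤ l (q + 1) / D q := by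
      rw [le_div_iff₀ hDq]
      have h1 := hUV2 (q + 1)
      have h3 := hlow q le_rfl
      have h4 : e ≤ 2 * κ * D q := by
        have h4 : κ * s₀ ≤ 2 * κ * ((1 - κ) * s₀) := by
          have h5 : 0 < κ * s₀ := mul_pos hκ hs
          nlinarith
        have h6 : 2 * κ * ((1 - κ) * s₀) ≤ 2 * κ * D q :=
          mul_le_mul_of_nonneg_left h3.le (by linarith)
        linarith
      rw [hl]
      beta_reduce
      linarith
    have hS : ∑ i ∈ Finset.range (q - p + 1), (l (p + i) - l (p + (i + 1))) / D (p + i) ≤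
        2 * (1 + 2 * κ) * (Λ + 2) := by
      have h1 : 2 * (1 + 2 * κ) * (1 + Real.log (D p / D q)) ≤
          2 * (1 + 2 * κ) * (1 + (Λ + 2 / 9)) :=
        mul_le_mul_of_nonneg_left (by linarith) (by positivity)
      nlinarith
    have hS' : ∑ k ∈ Finset.range (q - p + 1), (l (p + k) - l (p + k + 1)) / D (p + k) ≤
        2 * (1 + 2 * κ) * (Λ + 2) := hS
    calc B / 2 * ∑ k ∈ Finset.range (q - p + 1), (l (p + k) - l (p + k + 1)) / D (p + k)
        ≤ B / 2 * (2 * (1 + 2 * κ) * (Λ + 2)) := mul_le_mul_of_nonneg_left hS' (by linarith)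
      _ = B * ((1 + 2 * κ) * (Λ + 2)) := by ring
  refine (abs_add_le _ _).trans ?_
  have hfin : B * ((1 + 2 * κ) * (Λ + 2)) =
      τ * ((1 + κ) * (1 + 2 * κ) / (1 - 2 * κ) * (1 + 2 / Λ)) := by
    rw [hB]
    field_simp
  rw [mul_add, mul_one, ← hfin]
  exact add_le_add hfirst hsecond

end Pool.Agent.Helper61.SE
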